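import Pool.Agent.Q59.CC.Main

/-!
# The Hodge conjecture for cyclic covers of arbitrary varieties

For `j ∈ J` (a finite set) let `Y_j` be an arbitrary smooth projective complex variety, and `Z`
another one. Let `L_j` be a sufficiently ample line bundle on `Y_j`, `q j` a prime number or `4`, and
`X_j → Y_j` the cyclic cover of degree `q j` whose branch divisor `D_j` is a very general member of
the linear system of `L_j ^ (q j)` (very general: the tuple of the `D_j` is outside a countable union of
proper closed subsets, which depends on `Z` and the `Y_j`). We study the products of `Z` with
arbitrary powers of the `Y_j`, the `X_j`, and of divisors `D_j`, for which we write `q j = 1`; here the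
`j` can have different or equal `Y_j`, and the same divisor may be used for several different `q j`, but
not for both `2` and `4` (the double cover is a quotient of the cover of degree four).

**Cohomology.** Let `n = dim Y_j`. For a character `a ≠ 0` of the covering group the eigenspace `V_(j, a)`
in the cohomology of `X_j` is concentrated in the degree `n`, and has the dimension
`(-1) ^ n (e (Y_j) - e (D_j))`, since `Y_j - D_j` is affine; the rest of the cohomology is the cohomology
of `Y_j`. For the divisor, `V_(j, 0)` is the vanishing cohomology, in the degree `n - 1`; by the theorems
of Lefschetz the rest of the cohomology comes from `Y_j`, and a Hodge class in this rest (and also with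
values in the cohomology of another variety) is a combination of products of powers of the hyperplane
class with restrictions of Hodge classes. Let `N` be a common multiple of the `q j`, and write `a` as a
residue modulo `N`, killed by `q j`.

**The Hodge numbers of the determinants.** Let `h ^ (r, n - r)` be the Hodge numbers of the eigenspace
`V_(j, a)`. The fixed point formula of Atiyah and Singer for the `χ_y` genus and its derivative at
`y = -1` gives, for every `Y_j` and every smooth `D_j`,
`∑ (n - r) h ^ (r, n - r) = n dim V / 2 + (-1) ^ (n - 1) e (D_j) (a / N - 1 / 2)`, `0 < a < N`, for one of
the two identifications of the characters with residues. So the determinant of `V_(j, a)` has, at the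
embedding given by a unit `t`, the Hodge number (minus half the weight) `excess t (j, a)`, where `euler j`
is `(-1) ^ (n - 1) e (D_j)`. It is zero if `2 a = 0`.

**Monodromy.** Let `D` be the group of the linear maps which preserve all `V_i`, `i ∈ Label`, and the
pairings, and have the determinant one on `V_i` unless the pairing is an alternating form on `V_i`: a
product of special linear groups, for the pairs `(j, ± a)`, `2 a ≠ 0`, and of symplectic and special
orthogonal groups for `2 a = 0` (in the first case the sign of the pairing of `V_i` and `V_(star i)` does
not matter, and can be chosen such that the pairing is alternating). `D` is the identity component of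
the Zariski closure of the monodromy group of the family of all `(D_j)`: the discriminants are
irreducible, the local monodromy on `V_(j, a)` is a complex reflection with the nontrivial eigenvalue
`± exp (2 π i a / N)` or a transvection, the vanishing cycles generate `V_(j, a)` (on the vector space of
the equations there are no invariants), and the group is infinite since `L_j` is sufficiently ample
(Carlson and Toledo, Discriminant complements and kernels of monodromy representations; Deligne,
La conjecture de Weil II, for `2 a = 0`); different labels are independent since the eigenvalues of the
reflections are different (Goursat, Kolchin, Ribet). It acts trivially on the cohomology of `Z` and of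
the `Y_j`. So the Hodge classes are invariant under `D` (Deligne; André), and on the invariants of `D` the
Hodge operator on `V_i` can be replaced by its average eigenvalue.

**Hodge tensors.** A component of the cohomology of the product is the tensor product of `s` of the spaces
`V_i` with a part `W` of the cohomology of the product of `Z` and powers of the `Y_j`. Let `K` be the
field of the `N`-th roots of unity, and for a unit `t` modulo `N` and a number `r` let `F t r` be the
span in `W` of the classes with coefficients in `K` whose conjugates by the automorphism of `K`
given by `t` are of type `(., r)`. If `2 c` is the weight of `W`, then the Hodge classes span over `ℂ` the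
space of the Hodge tensors (`IsHodgeTensor`), and `z ∈ F t c` for all `t` means that `z` is a
combination of Hodge classes.

**Algebraic tensors.** The pairings of `V_(j, a)` and `V_(j, -a)` are algebraic: combinations of the
graphs of the covering automorphisms, and of the diagonal of `D_j` and classes from `Y_j × Y_j`.

**The theorem.** Every Hodge tensor is a combination of products of Hodge classes `z`, of pairings, and of
determinants of the `V_i`, `i = μ k`, where the list `μ` is reduced and balanced. If the covers of
degree at least three have different degrees and their branch divisors have nonzero Euler
characteristics (this is so for sufficiently ample `L_j`), these are the determinants of different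
`V_i` with a symmetric form only. These do not occur if `X_j` has an odd dimension for `q j = 1, 2, 4`
(for `q j = 1`: `D_j`). Therefore:

**Let `X_j` be cyclic covers of prime degree or of degree four, very general, and of different degrees if
the degree is at least three, and of odd dimension if the degree is even; and let `D_j` be very
general divisors of odd dimension. If the Hodge conjecture holds for all products of `Z` and powers of
the `Y_j`, and the cohomology of these contains no nontrivial Hodge structures of CM type (`NoCM`),
then it holds for all products of `Z` and powers of the `Y_j`, `X_j` and `D_j`.** For instance the
Hodge conjecture holds for all powers of very general cyclic covers of odd prime degree of projective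
spaces, of all dimensions, and for their products if the degrees are different.
-/

namespace Pool.Agent.Q59.Cand.CyclicCovers

open Pool.Agent.Q59.LS Pool.Agent.Q59.CC

/-- **The Hodge conjecture for cyclic covers of arbitrary varieties.** -/
theorem result (J : Type) [Fintype J] [DecidableEq J] (C : Covers J) (N : ℕ) [NeZero N]
    (ε : Letter (spaces N C) → ℂ)
    (hε : ∀ x, ¬ (spaces N C).orth x.1 = true → ε (dual x) = -ε x) (hε0 : ∀ x, ε x ≠ 0)
    (W : Type) [AddCommGroup W] [Module ℂ W] (F : (ZMod N)ˣ → ℚ → Submodule ℂ W) (hF : NoCM F)
    (c : ℚ) (s : ℕ) (x : (Fin s → Letter (spaces N C)) → W) (hx : IsHodgeTensor ε F c x) :
    x ∈ spanZ (fun _ μ z => (∀ t : (ZMod N)ˣ, z ∈ F t c) ∧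
      Reduced (spaces N C) μ ∧ Balanced μ) ε (Fin s) ∧
    (Separate C → x ∈ spanZ (fun _ μ z => (∀ t : (ZMod N)ˣ, z ∈ F t c) ∧
      Reduced (spaces N C) μ ∧ ∀ k, (spaces N C).orth (μ k) = true) ε (Fin s)) :=
  ⟨core hε hε0 hF hx, fun hC => core_separate hC hε hε0 hF hx⟩

end Pool.Agent.Q59.Cand.CyclicCovers
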